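import Pool.Agent.P.MP_49eb30_co.Low

/-! The largest layered tree-independence number of a hyperbolic uniform disk graph of radius `r`
has order exactly `1 + r`. -/

namespace Pool.Agent.Results.MP_49eb30_co.LinearGrowth

open Pool.Agent.P.MP_49eb30_co

theorem result (r : ℝ) (hr : 0 < r) :
    (∀ (V : Type) [Finite V] (G : SimpleGraph V) (c : V → UpperHalfPlane),
      IsDiskRep G r c → (ltreeAlpha G : ℝ) ≤ 6 * r + 6) ∧
    ∃ (V : Type) (_ : Finite V) (G : SimpleGraph V) (c : V → UpperHalfPlane),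
      Function.Injective c ∧ IsDiskRep G r c ∧ (∃ o, ∀ v, v ≠ o → G.Adj o v) ∧
        (Nat.card V : ℝ) ≤ Real.exp r ∧ r / 18 - 1 ≤ (ltreeAlpha G : ℝ) :=
  ⟨fun _ _ _ _ h => upper hr h, lower hr⟩

end Pool.Agent.Results.MP_49eb30_co.LinearGrowth
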